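import Pool.Agent.Lib.MP_28303a_al.NT.H60.Ret
import Pool.Agent.Lib.MP_28303a_al.NT.Kar

/-! # Row IC: perfect objects and finite complexes of located projective modules -/

set_option autoImplicit false
set_option linter.unusedSectionVars false
set_option linter.unusedVariables false

namespace Pool.Agent.NegK.NT.H60

universe v u

open CategoryTheory Limits Pretriangulated Idempotents

section kar

variable {C : Type u} [Category.{v} C] [Preadditive C]

/-- The truncation of a complex over a Karoubi envelope. -/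
def truC (W : CochainComplex (Karoubi C) ℤ) (c : ℤ) : CochainComplex (Karoubi C) ℤ where
  X i := ⟨(W.X i).X, if i < c then (W.X i).p else 0, by
    split_ifs
    · exact (W.X i).idem
    · exact zero_comp⟩
  d i j := ⟨if j < c then (W.d i j).f else 0, by
    show (if i < c then (W.X i).p else 0) ≫ (if j < c then (W.d i j).f else 0) ≫
      (if j < c then (W.X j).p else 0) = (if j < c then (W.d i j).f else 0)
    by_cases hj : j < c
    · rw [if_pos hj, if_pos hj]
      by_cases hij : (ComplexShape.up ℤ).Rel i j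
      · have hi : i < c := by
          have h' : i + 1 = j := hij
          omega
        rw [if_pos hi]
        exact (W.d i j).comm
      · rw [W.shape i j hij]
        show _ ≫ (0 : (W.X i).X ⟶ (W.X j).X) ≫ _ = 0
        rw [zero_comp, comp_zero]
    · rw [if_neg hj, if_neg hj, comp_zero, comp_zero]⟩
  shape i j h := by
    refine Karoubi.hom_ext _ _ ?_
    show (if j < c then (W.d i j).f else 0) = 0
    rw [W.shape i j h]
    split_ifs <;> rfl
  d_comp_d' i j k hij hjk := by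
    refine Karoubi.hom_ext _ _ ?_
    show (if j < c then (W.d i j).f else 0) ≫ (if k < c then (W.d j k).f else 0) = 0
    by_cases hk : k < c
    · have hj : j < c := by
        have h' : j + 1 = k := hjk
        omega
      rw [if_pos hk, if_pos hj]
      have h2 := congrArg Karoubi.Hom.f (W.d_comp_d i j k)
      exact h2
    · rw [if_neg hk, comp_zero]

/-- The projection to the truncation. -/
def truP (W : CochainComplex (Karoubi C) ℤ) (c : ℤ) : W ⟶ truC W c where
  f i := ⟨if i < c then (W.X i).p else 0, by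
    show (W.X i).p ≫ (if i < c then (W.X i).p else 0) ≫
      (if i < c then (W.X i).p else 0) = (if i < c then (W.X i).p else 0)
    split_ifs
    · rw [(W.X i).idem, (W.X i).idem]
    · rw [comp_zero, comp_zero]⟩
  comm' i j hij := by
    refine Karoubi.hom_ext _ _ ?_
    show (if i < c then (W.X i).p else 0) ≫ (if j < c then (W.d i j).f else 0) =
      (W.d i j).f ≫ (if j < c then (W.X j).p else 0)
    by_cases hj : j < c
    · have hi : i < c := by
        have h' : i + 1 = j := hij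
        omega
      rw [if_pos hi, if_pos hj, if_pos hj]
      rw [Karoubi.p_comp, Karoubi.comp_p]
    · rw [if_neg hj, if_neg hj, comp_zero, comp_zero]

theorem truP_iso (W : CochainComplex (Karoubi C) ℤ) (c : ℤ) (i : ℤ) (hi : i < c) :
    IsIso ((truP W c).f i) := by
  refine ⟨⟨(W.X i).p, ?_⟩, ?_, ?_⟩
  · show (if i < c then (W.X i).p else 0) ≫ (W.X i).p ≫ (W.X i).p = (W.X i).p
    rw [if_pos hi, (W.X i).idem, (W.X i).idem]
  · refine Karoubi.hom_ext _ _ ?_
    show (if i < c then (W.X i).p else 0) ≫ (W.X i).p = (W.X i).p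
    rw [if_pos hi, (W.X i).idem]
  · refine Karoubi.hom_ext _ _ ?_
    show (W.X i).p ≫ (if i < c then (W.X i).p else 0) = (if i < c then (W.X i).p else 0)
    rw [if_pos hi, (W.X i).idem]

theorem truC_zero (W : CochainComplex (Karoubi C) ℤ) (c : ℤ) (i : ℤ) (hi : c ≤ i) :
    IsZero ((truC W c).X i) := by
  rw [IsZero.iff_id_eq_zero]
  refine Karoubi.hom_ext _ _ ?_
  show (if i < c then (W.X i).p else 0) = 0
  rw [if_neg (by omega)]

end kar

section loc

variable (k : Type u) [Ring k] {Γ : Type u} [Group Γ] {B : Type u} [MulAction Γ B] (P : Pre Γ B)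

/-- Retracts of finite located free modules. -/
def QF (Y : KL k P) : Prop :=
  ∃ A : Loc k P, Finite A.ι ∧ ∃ (i : Y ⟶ (toKaroubi _).obj A) (r : (toKaroubi _).obj A ⟶ Y),
    i ≫ r = 𝟙 Y

variable {k P}

theorem qf_ret {X Y : KL k P} (i : Y ⟶ X) (r : X ⟶ Y) (h : i ≫ r = 𝟙 Y) (hX : QF k P X) :
    QF k P Y := by
  obtain ⟨A, hA, j, q, hjq⟩ := hX
  refine ⟨A, hA, i ≫ j, q ≫ r, ?_⟩
  rw [Category.assoc, ← Category.assoc j, hjq, Category.id_comp, h]

/-- The object with finite basis. -/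
theorem qf_rep {Y : KL k P} (hY : QF k P Y) : ∃ Y' : KL k P, Finite Y'.X.ι ∧ Nonempty (Y ≅ Y') := by
  obtain ⟨A, hA, i, r, h⟩ := hY
  have hi : Y.p ≫ i.f = i.f := Karoubi.p_comp i
  have hr : r.f ≫ Y.p = r.f := Karoubi.comp_p r
  have hir : i.f ≫ r.f = Y.p := congrArg Karoubi.Hom.f h
  have hp : (r.f ≫ i.f) ≫ (r.f ≫ i.f) = r.f ≫ i.f := by
    rw [Category.assoc, ← Category.assoc i.f, hir, hi]
  refine ⟨⟨A, r.f ≫ i.f, hp⟩, hA, ⟨⟨⟨i.f, ?_⟩, ⟨r.f, ?_⟩, ?_, ?_⟩⟩⟩
  · show Y.p ≫ i.f ≫ r.f ≫ i.f = i.f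
    rw [← Category.assoc i.f, hir, hi, hi]
  · show (r.f ≫ i.f) ≫ r.f ≫ Y.p = r.f
    rw [hr, Category.assoc, hir, hr]
  · refine Karoubi.hom_ext _ _ ?_
    exact hir
  · refine Karoubi.hom_ext _ _ ?_
    rfl

theorem cls : Cls (QF k P) where
  zero X hX := by
    refine ⟨⟨PEmpty, fun i => i.elim⟩, inferInstance, 0, 0, ?_⟩
    rw [comp_zero]
    exact hX.eq_of_src _ _
  iso X Y e h := qf_ret e.inv e.hom e.inv_hom_id h
  sum X Y hX hY := by
    obtain ⟨A, hA, i, r, h⟩ := hX
    obtain ⟨A', hA', i', r', h'⟩ := hY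
    have h1 : Loc.sInl A A' ≫ Loc.sFst A A' = 𝟙 A := (Loc.bic A A').inl_fst
    have h2 : Loc.sInr A A' ≫ Loc.sSnd A A' = 𝟙 A' := (Loc.bic A A').inr_snd
    have h3 : Loc.sInl A A' ≫ Loc.sSnd A A' = 0 := (Loc.bic A A').inl_snd
    have h4 : Loc.sInr A A' ≫ Loc.sFst A A' = 0 := (Loc.bic A A').inr_fst
    let T := toKaroubi (Loc k P)
    have t1 : T.map (Loc.sInl A A') ≫ T.map (Loc.sFst A A') = 𝟙 _ := by
      rw [← T.map_comp, h1, T.map_id]
    have t2 : T.map (Loc.sInr A A') ≫ T.map (Loc.sSnd A A') = 𝟙 _ := by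
      rw [← T.map_comp, h2, T.map_id]
    have t3 : T.map (Loc.sInl A A') ≫ T.map (Loc.sSnd A A') = 0 := by
      rw [← T.map_comp, h3, T.map_zero]
    have t4 : T.map (Loc.sInr A A') ≫ T.map (Loc.sFst A A') = 0 := by
      rw [← T.map_comp, h4, T.map_zero]
    refine ⟨Loc.sm A A', inferInstance,
      biprod.fst ≫ i ≫ T.map (Loc.sInl A A') + biprod.snd ≫ i' ≫ T.map (Loc.sInr A A'),
      T.map (Loc.sFst A A') ≫ r ≫ biprod.inl + T.map (Loc.sSnd A A') ≫ r' ≫ biprod.inr, ?_⟩
    simp only [Preadditive.add_comp, Preadditive.comp_add, Category.assoc, reassoc_of% t1,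
      reassoc_of% t2, reassoc_of% t3, reassoc_of% t4, reassoc_of% h, reassoc_of% h', zero_comp,
      comp_zero, add_zero, zero_add, biprod.total]
  spl X hX e he := by
    have he' : e.f ≫ e.f = e.f := congrArg Karoubi.Hom.f he
    have hpe : X.p ≫ e.f = e.f := Karoubi.p_comp e
    have hep : e.f ≫ X.p = e.f := Karoubi.comp_p e
    let Y : KL k P := ⟨X.X, e.f, he'⟩
    let j : Y ⟶ X := ⟨e.f, by
      show e.f ≫ e.f ≫ X.p = e.f
      rw [hep, he']⟩
    let q : X ⟶ Y := ⟨e.f, by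
      show X.p ≫ e.f ≫ e.f = e.f
      rw [he', hpe]⟩
    have hjq : j ≫ q = 𝟙 Y := Karoubi.hom_ext _ _ he'
    exact ⟨Y, j, q, qf_ret j q hjq hX, hjq, Karoubi.hom_ext _ _ he'⟩
  tru W c := ⟨truC W c, truP W c, truP_iso W c, truC_zero W c⟩

/-- Bounded complexes of retracts of finite modules are isomorphic to finite complexes. -/
theorem finK_of_bd {a c : ℤ} {E : CochainComplex (KL k P) ℤ} (hE : Bd (QF k P) a c E) :
    ∃ E' : CochainComplex (KL k P) ℤ, FinK E' ∧ Nonempty (E ≅ E') := by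
  choose Y hY e using fun n => qf_rep (hE.1 n)
  let e' : ∀ n, E.X n ≅ Y n := fun n => (e n).some
  let E' : CochainComplex (KL k P) ℤ :=
    { X := Y
      d := fun i j => (e' i).inv ≫ E.d i j ≫ (e' j).hom
      shape := fun i j h => by rw [E.shape i j h, zero_comp, comp_zero]
      d_comp_d' := fun i j l _ _ => by simp }
  refine ⟨E', ⟨hY, a, c, fun n hn => (hE.2 n hn).of_iso (e' n).symm⟩,
    ⟨HomologicalComplex.Hom.isoOfComponents e' fun i j _ => ?_⟩⟩
  show (e' i).hom ≫ (e' i).inv ≫ E.d i j ≫ (e' j).hom = E.d i j ≫ (e' j).hom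
  rw [Iso.hom_inv_id_assoc]

end loc

end H60

universe u

open CategoryTheory Limits Pretriangulated Idempotents

/-- Row IC. -/
theorem ic (k : Type u) [Ring k] {Γ : Type u} [Group Γ] {B : Type u} [MulAction Γ B]
    (P : Pre Γ B) : IC k P := by
  intro X hX
  obtain ⟨E, hE, ⟨R⟩⟩ := hX
  obtain ⟨a, b, hab⟩ := hE.bdd
  let F : CochainComplex (KL k P) ℤ :=
    ((toKaroubi (Loc k P)).mapHomologicalComplex (ComplexShape.up ℤ)).obj E
  obtain ⟨n, hn⟩ : ∃ n : ℕ, b ≤ a + n := ⟨(b - a).toNat, by omega⟩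
  have hF : H60.Bd (H60.QF k P) a (a + n) F := by
    refine ⟨fun i => ⟨E.X i, hE.fin i, 𝟙 _, 𝟙 _, Category.comp_id _⟩, fun i hi => ?_⟩
    have := hab i (by omega)
    exact (toKaroubi (Loc k P)).map_isZero (Loc.isZero_of_isEmpty (E.X i))
  have R' : Retract ((tk k P).obj X) (H60.qq.obj F) := R.map (tk k P)
  obtain ⟨E1, hE1, ⟨u⟩⟩ := H60.ret H60.cls n a F hF _ R'
  obtain ⟨E2, hE2, ⟨v⟩⟩ := H60.finK_of_bd hE1
  exact ⟨E2, hE2, ⟨u ≪≫ (HomotopyCategory.quotient _ _).mapIso v⟩⟩

end Pool.Agent.NegK.NT
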