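import Mathlib

/-! # Retracts of bounded complexes over an idempotent complete category -/

set_option autoImplicit false
set_option linter.unusedSectionVars false
set_option linter.unusedVariables false

namespace Pool.Agent.NegK.NT.H60

open CategoryTheory Limits Pretriangulated HomologicalComplex

universe v u

variable {C : Type u} [Category.{v} C] [Preadditive C] [HasZeroObject C] [HasBinaryBiproducts C]

/-- Closure properties of a class of objects. -/
structure Cls (Q : C → Prop) : Prop where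
  zero : ∀ X, IsZero X → Q X
  iso : ∀ X Y, (X ≅ Y) → Q X → Q Y
  sum : ∀ X Y, Q X → Q Y → Q (X ⊞ Y)
  spl : ∀ X, Q X → ∀ e : X ⟶ X, e ≫ e = e → ∃ (Y : C) (i : Y ⟶ X) (r : X ⟶ Y),
    Q Y ∧ i ≫ r = 𝟙 Y ∧ r ≫ i = e
  tru : ∀ (W : CochainComplex C ℤ) (c : ℤ), ∃ (W' : CochainComplex C ℤ) (π : W ⟶ W'),
    (∀ i, i < c → IsIso (π.f i)) ∧ ∀ i, c ≤ i → IsZero (W'.X i)

/-- Complexes in the degrees `[a, c]` with terms in the class. -/
def Bd (Q : C → Prop) (a c : ℤ) (E : CochainComplex C ℤ) : Prop :=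
  (∀ n, Q (E.X n)) ∧ ∀ n, (n < a ∨ c < n) → IsZero (E.X n)

/-- The quotient functor. -/
noncomputable abbrev qq : CochainComplex C ℤ ⥤ HomotopyCategory C (ComplexShape.up ℤ) :=
  HomotopyCategory.quotient C (ComplexShape.up ℤ)

/-- The complex with one term. -/
noncomputable abbrev sc (c : ℤ) (T : C) : CochainComplex C ℤ := (single C (ComplexShape.up ℤ) c).obj T

/-- The object with one term. -/
noncomputable abbrev sg (c : ℤ) (T : C) : HomotopyCategory C (ComplexShape.up ℤ) :=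
  qq.obj (sc c T)

/-- Objects isomorphic to complexes in the degrees `[a, c]` with terms in the class. -/
def Rep (Q : C → Prop) (a c : ℤ) (X : HomotopyCategory C (ComplexShape.up ℤ)) : Prop :=
  ∃ E : CochainComplex C ℤ, Bd Q a c E ∧ Nonempty (X ≅ qq.obj E)

theorem sg_ne {i j : ℤ} (h : i ≠ j) {S T : C} (g : sg i S ⟶ sg j T) : g = 0 := by
  obtain ⟨g0, rfl⟩ := (qq (C := C)).map_surjective g
  have : g0 = 0 := from_single_hom_ext ((isZero_single_obj_X _ j T i h).eq_of_tgt _ _)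
  rw [this, Functor.map_zero]

theorem sc_inj {a : ℤ} {S T : C} {f g : sc a S ⟶ sc a T} (h : qq.map f = qq.map g) : f = g := by
  have H := HomotopyCategory.homotopyOfEq _ _ h
  refine from_single_hom_ext ?_
  rw [H.comm a]
  simp [dNext, prevD]

/-- The shift of an object with one term. -/
noncomputable def sgSh (c : ℤ) (T : C) : (sg c T)⟦(1 : ℤ)⟧ ≅ sg (c - 1) T :=
  ((HomotopyCategory.singleFunctors C).shiftIso 1 (c - 1) c (by lia)).app T

theorem bd_single {Q : C → Prop} (hQ : Cls Q) (c : ℤ) {T : C} (hT : Q T) : Bd Q c c (sc c T) := by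
  refine ⟨fun n => ?_, fun n hn => isZero_single_obj_X _ _ _ _ (by rintro rfl; omega)⟩
  by_cases h : n = c
  · exact hQ.iso _ _ (singleObjXIsoOfEq _ c T n h).symm hT
  · exact hQ.zero _ (isZero_single_obj_X _ _ _ _ h)

theorem bd_mono {Q : C → Prop} {a c a' c' : ℤ} {E : CochainComplex C ℤ} (h : Bd Q a c E)
    (h1 : a' ≤ a) (h2 : c ≤ c') : Bd Q a' c' E :=
  ⟨h.1, fun n hn => h.2 n (by omega)⟩

theorem bd_cone {Q : C → Prop} (hQ : Cls Q) {a c a' c' b d : ℤ} {K L : CochainComplex C ℤ}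
    (f : K ⟶ L) (hK : Bd Q a c K) (hL : Bd Q a' c' L) (h1 : b ≤ a - 1) (h2 : b ≤ a')
    (h3 : c - 1 ≤ d) (h4 : c' ≤ d) : Bd Q b d (CochainComplex.mappingCone f) := by
  have e : ∀ n, (CochainComplex.mappingCone f).X n ≅ K.X (n + 1) ⊞ L.X n := fun n =>
    homotopyCofiber.XIsoBiprod f n (n + 1) rfl
  refine ⟨fun n => hQ.iso _ _ (e n).symm (hQ.sum _ _ (hK.1 _) (hL.1 _)), fun n hn => ?_⟩
  refine IsZero.of_iso ?_ (e n)
  rw [biprod_isZero_iff]
  exact ⟨hK.2 _ (by omega), hL.2 _ (by omega)⟩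

theorem bd_shift {Q : C → Prop} (hQ : Cls Q) {a c : ℤ} {K : CochainComplex C ℤ} (hK : Bd Q a c K)
    (n : ℤ) : Bd Q (a - n) (c - n) (K⟦n⟧) :=
  ⟨fun i => hK.1 (i + n), fun i hi => hK.2 (i + n) (by omega)⟩

theorem bd_iso {Q : C → Prop} (hQ : Cls Q) {a c : ℤ} {K L : CochainComplex C ℤ} (hK : Bd Q a c K)
    (e : K ≅ L) : Bd Q a c L :=
  ⟨fun i => hQ.iso _ _ ((eval C _ i).mapIso e) (hK.1 i), fun i hi =>
    (hK.2 i hi).of_iso ((eval C _ i).mapIso e).symm⟩

/-- The inclusion of the last term. -/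
noncomputable def top (E : CochainComplex C ℤ) (c : ℤ) (h : IsZero (E.X (c + 1))) :
    sc c (E.X c) ⟶ E :=
  mkHomFromSingle (𝟙 _) (by
    intro k hk
    obtain rfl : c + 1 = k := hk
    exact h.eq_of_tgt _ _)

theorem top_f (E : CochainComplex C ℤ) (c : ℤ) (h : IsZero (E.X (c + 1))) :
    (top E c h).f c = (singleObjXSelf _ c (E.X c)).hom := by
  rw [top, mkHomFromSingle_f, Category.comp_id]

instance (E : CochainComplex C ℤ) (c : ℤ) (h : IsZero (E.X (c + 1))) : IsIso ((top E c h).f c) := by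
  rw [top_f]
  infer_instance

theorem factor (E : CochainComplex C ℤ) (c : ℤ) (h : IsZero (E.X (c + 1))) {T : C}
    (g : sg c T ⟶ qq.obj E) : ∃ g' : sg c T ⟶ sg c (E.X c), g = g' ≫ qq.map (top E c h) := by
  obtain ⟨g0, rfl⟩ := (qq (C := C)).map_surjective g
  refine ⟨qq.map ((single C _ c).map ((singleObjXSelf _ c T).inv ≫ g0.f c)), ?_⟩
  rw [← Functor.map_comp]
  congr 1
  refine from_single_hom_ext ?_
  rw [comp_f, top_f, single_map_f_self]
  simp

/-- The triangle of the last term. -/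
theorem last {Q : C → Prop} (hQ : Cls Q) {a c : ℤ} {W : CochainComplex C ℤ} (hW : Bd Q a c W)
    (h : IsZero (W.X (c + 1))) : ∃ (W' : CochainComplex C ℤ) (p : qq.obj W ⟶ qq.obj W')
      (w : qq.obj W' ⟶ (sg c (W.X c))⟦(1 : ℤ)⟧), Bd Q a (c - 1) W' ∧
      Triangle.mk (qq.map (top W c h)) p w ∈ distTriang (HomotopyCategory C (ComplexShape.up ℤ)) := by
  obtain ⟨W', π, h1, h2⟩ := hQ.tru W c
  have hz : top W c h ≫ π = 0 := from_single_hom_ext ((h2 c le_rfl).eq_of_tgt _ _)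
  let S : ShortComplex (CochainComplex C ℤ) := ShortComplex.mk (top W c h) π hz
  have σ : ∀ n, Nonempty ((S.map (eval C _ n)).Splitting) := by
    intro n
    rcases lt_trichotomy n c with hn | rfl | hn
    · exact ⟨ShortComplex.Splitting.ofIsZeroOfIsIso _
        (isZero_single_obj_X (ComplexShape.up ℤ) c (W.X c) n hn.ne) (h1 n hn)⟩
    · exact ⟨ShortComplex.Splitting.ofIsIsoOfIsZero _
        (inferInstanceAs (IsIso ((top W n h).f n))) (h2 n le_rfl)⟩
    · have z1 : IsZero (sc c (W.X c) |>.X n) := isZero_single_obj_X _ _ _ _ hn.ne'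
      have z2 := hW.2 n (Or.inr hn)
      have z3 := h2 n hn.le
      have : IsIso (π.f n) := ⟨⟨0, z2.eq_of_src _ _, z3.eq_of_src _ _⟩⟩
      exact ⟨ShortComplex.Splitting.ofIsZeroOfIsIso _ z1 this⟩
  let σ' : ∀ n, (S.map (eval C _ n)).Splitting := fun n => (σ n).some
  refine ⟨W', qq.map π, (CochainComplex.trianglehOfDegreewiseSplit S σ').mor₃, ⟨fun n => ?_,
    fun n hn => ?_⟩, ?_⟩
  · by_cases hn : n < c
    · have := h1 n hn
      exact hQ.iso _ _ (asIso (π.f n)) (hW.1 n)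
    · exact hQ.zero _ (h2 n (by omega))
  · rcases hn with hn | hn
    · by_cases h3 : n < c
      · have := h1 n h3
        exact (hW.2 n (Or.inl hn)).of_iso (asIso (π.f n)).symm
      · exact h2 n (by omega)
    · exact h2 n (by omega)
  · rw [HomotopyCategory.distinguished_iff_iso_trianglehOfDegreewiseSplit]
    exact ⟨S, σ', ⟨Iso.refl _⟩⟩

/-- Retracts of objects with one term. -/
theorem ret_base {Q : C → Prop} (hQ : Cls Q) {a : ℤ} {E : CochainComplex C ℤ} (hE : Bd Q a a E)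
    {X : HomotopyCategory C (ComplexShape.up ℤ)} (R : Retract X (qq.obj E)) : Rep Q a a X := by
  have h : IsZero (E.X (a + 1)) := hE.2 _ (by omega)
  have : ∀ n, IsIso ((top E a h).f n) := by
    intro n
    by_cases hn : n = a
    · subst hn
      infer_instance
    · have z1 : IsZero ((sc a (E.X a)).X n) := isZero_single_obj_X _ _ _ _ hn
      have z2 := hE.2 n (by omega)
      exact ⟨⟨0, z1.eq_of_src _ _, z2.eq_of_src _ _⟩⟩
  have hi : IsIso (top E a h) := HomologicalComplex.Hom.isIso_of_components _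
  let u : sg a (E.X a) ≅ qq.obj E := (qq (C := C)).mapIso (asIso (top E a h))
  let i' : X ⟶ sg a (E.X a) := R.i ≫ u.inv
  let r' : sg a (E.X a) ⟶ X := u.hom ≫ R.r
  have hir : i' ≫ r' = 𝟙 X := by
    simp only [i', r', Category.assoc, Iso.inv_hom_id_assoc, R.retract]
  obtain ⟨e1, he1⟩ := (qq (C := C)).map_surjective (r' ≫ i')
  obtain ⟨e0, rfl⟩ := (single C (ComplexShape.up ℤ) a).map_surjective e1
  have h0 : e0 ≫ e0 = e0 := by
    apply (single C (ComplexShape.up ℤ) a).map_injective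
    apply sc_inj
    rw [Functor.map_comp, Functor.map_comp, he1]
    simp only [Category.assoc]
    rw [← Category.assoc i' r', hir, Category.id_comp]
  obtain ⟨Y, j, q, hY, hjq, hqj⟩ := hQ.spl _ (hE.1 a) e0 h0
  refine ⟨sc a Y, bd_single hQ a hY, ⟨⟨i' ≫ qq.map ((single C (ComplexShape.up ℤ) a).map q),
    qq.map ((single C (ComplexShape.up ℤ) a).map j) ≫ r', ?_, ?_⟩⟩⟩
  · have h1 : qq.map ((single C (ComplexShape.up ℤ) a).map q) ≫
        qq.map ((single C (ComplexShape.up ℤ) a).map j) = r' ≫ i' := by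
      rw [← Functor.map_comp, ← Functor.map_comp, hqj, he1]
    calc (i' ≫ qq.map ((single C (ComplexShape.up ℤ) a).map q)) ≫
        qq.map ((single C (ComplexShape.up ℤ) a).map j) ≫ r'
        = i' ≫ (qq.map ((single C (ComplexShape.up ℤ) a).map q) ≫
        qq.map ((single C (ComplexShape.up ℤ) a).map j)) ≫ r' := by
          simp only [Category.assoc]
      _ = (i' ≫ r') ≫ i' ≫ r' := by rw [h1]; simp only [Category.assoc]
      _ = 𝟙 X := by rw [hir, Category.comp_id]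
  · calc (qq.map ((single C (ComplexShape.up ℤ) a).map j) ≫ r') ≫
        i' ≫ qq.map ((single C (ComplexShape.up ℤ) a).map q)
        = qq.map ((single C (ComplexShape.up ℤ) a).map j) ≫ (r' ≫ i') ≫
        qq.map ((single C (ComplexShape.up ℤ) a).map q) := by simp only [Category.assoc]
      _ = qq.map ((single C (ComplexShape.up ℤ) a).map (j ≫ e0 ≫ q)) := by
          rw [← he1, Functor.map_comp, Functor.map_comp, Functor.map_comp, Functor.map_comp]
      _ = 𝟙 _ := by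
          have h2 : j ≫ e0 ≫ q = 𝟙 Y := by
            rw [← hqj, Category.assoc, ← Category.assoc, hjq, Category.id_comp]
          rw [h2, CategoryTheory.Functor.map_id, CategoryTheory.Functor.map_id]

section tri

variable {K : Type*} [Category K] [HasZeroObject K] [HasShift K ℤ] [Preadditive K]
  [∀ n : ℤ, (shiftFunctor K n).Additive] [Pretriangulated K]

theorem cdt {X Y Z X' Y' Z' : K} {f : X ⟶ Y} {g : Y ⟶ Z} {h : Z ⟶ X⟦(1 : ℤ)⟧} {f' : X' ⟶ Y'}
    {g' : Y' ⟶ Z'} {h' : Z' ⟶ X'⟦(1 : ℤ)⟧} (hT : Triangle.mk f g h ∈ distTriang K)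
    (hT' : Triangle.mk f' g' h' ∈ distTriang K) (a : X ⟶ X') (b : Y ⟶ Y')
    (hab : f ≫ b = a ≫ f') : ∃ c : Z ⟶ Z', g ≫ c = b ≫ g' ∧ h ≫ a⟦(1 : ℤ)⟧' = c ≫ h' :=
  complete_distinguished_triangle_morphism _ _ hT hT' a b hab

theorem ex2 {X Y Z V : K} {f : X ⟶ Y} {g : Y ⟶ Z} {h : Z ⟶ X⟦(1 : ℤ)⟧}
    (hT : Triangle.mk f g h ∈ distTriang K) (q : Y ⟶ V) (hq : f ≫ q = 0) :
    ∃ q' : Z ⟶ V, q = g ≫ q' :=
  Triangle.yoneda_exact₂ _ hT q hq

theorem coex3 {X Y Z V : K} {f : X ⟶ Y} {g : Y ⟶ Z} {h : Z ⟶ X⟦(1 : ℤ)⟧}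
    (hT : Triangle.mk f g h ∈ distTriang K) (q : V ⟶ Z) (hq : q ≫ h = 0) :
    ∃ q' : V ⟶ Y, q = q' ≫ g :=
  Triangle.coyoneda_exact₃ _ hT q hq

theorem fg_zero {X Y Z : K} {f : X ⟶ Y} {g : Y ⟶ Z} {h : Z ⟶ X⟦(1 : ℤ)⟧}
    (hT : Triangle.mk f g h ∈ distTriang K) : f ≫ g = 0 :=
  comp_distTriang_mor_zero₁₂ _ hT

theorem iso3 {X Y Z : K} {f : X ⟶ Y} {g : Y ⟶ Z} {h : Z ⟶ X⟦(1 : ℤ)⟧}
    (hT : Triangle.mk f g h ∈ distTriang K) (θ : Z ⟶ Z) (h1 : g ≫ θ = g) (h2 : θ ≫ h = h) :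
    IsIso θ := by
  let φ : Triangle.mk f g h ⟶ Triangle.mk f g h :=
    { hom₁ := 𝟙 _
      hom₂ := 𝟙 _
      hom₃ := θ
      comm₁ := by
        show f ≫ 𝟙 _ = 𝟙 _ ≫ f
        rw [Category.comp_id, Category.id_comp]
      comm₂ := by
        show g ≫ θ = 𝟙 _ ≫ g
        rw [h1, Category.id_comp]
      comm₃ := by
        show h ≫ (𝟙 X)⟦(1 : ℤ)⟧' = θ ≫ h
        rw [h2, CategoryTheory.Functor.map_id, Category.comp_id] }
  exact isIso₃_of_isIso₁₂ φ hT hT (inferInstanceAs (IsIso (𝟙 X)))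
    (inferInstanceAs (IsIso (𝟙 Y)))

end tri

theorem cone_tri {K L : CochainComplex C ℤ} (f : K ⟶ L) :
    ∃ (g : qq.obj L ⟶ qq.obj (CochainComplex.mappingCone f))
      (w : qq.obj (CochainComplex.mappingCone f) ⟶ (qq.obj K)⟦(1 : ℤ)⟧),
      Triangle.mk (qq.map f) g w ∈ distTriang (HomotopyCategory C (ComplexShape.up ℤ)) :=
  ⟨(CochainComplex.mappingCone.triangleh f).mor₂, (CochainComplex.mappingCone.triangleh f).mor₃,
    ⟨_, _, f, ⟨Iso.refl _⟩⟩⟩

/-- Retracts of bounded complexes. -/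
theorem ret {Q : C → Prop} (hQ : Cls Q) : ∀ (n : ℕ) (a : ℤ) (E : CochainComplex C ℤ),
    Bd Q a (a + n) E → ∀ (X : HomotopyCategory C (ComplexShape.up ℤ)),
    Retract X (qq.obj E) → Rep Q a (a + n) X
  | 0, a, E, hE, X, R => by
    have e : a + ((0 : ℕ) : ℤ) = a := by simp
    rw [e] at hE ⊢
    exact ret_base hQ hE R
  | n + 1, a, E, hE, X, R => by
    set c : ℤ := a + ((n + 1 : ℕ) : ℤ) with hc
    have hc' : c = a + n + 1 := by rw [hc]; push_cast; ring
    have h : IsZero (E.X (c + 1)) := hE.2 _ (by omega)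
    let φ : sg c (E.X c) ⟶ X := qq.map (top E c h) ≫ R.r
    obtain ⟨Z, g, w, hT⟩ := distinguished_cocone_triangle φ
    obtain ⟨f0, hf0⟩ := (qq (C := C)).map_surjective (φ ≫ R.i)
    -- the cone over `E`
    have hS : Bd Q c c (sc c (E.X c)) := bd_single hQ c (hE.1 c)
    have hW : Bd Q a c (CochainComplex.mappingCone f0) :=
      bd_cone hQ f0 hS hE (by omega) le_rfl (by omega) le_rfl
    obtain ⟨g1, w1, hT1⟩ := cone_tri f0
    obtain ⟨s, hs1, hs2⟩ := cdt hT hT1 (𝟙 _) R.i (by rw [Category.id_comp, hf0])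
    obtain ⟨ρ, hρ1, hρ2⟩ := cdt hT1 hT (𝟙 _) R.r (by
      rw [Category.id_comp, hf0, Category.assoc, R.retract, Category.comp_id])
    rw [CategoryTheory.Functor.map_id, Category.comp_id] at hs2 hρ2
    have hθ : IsIso (s ≫ ρ) := iso3 hT (s ≫ ρ)
      (by rw [← Category.assoc, hs1, Category.assoc, hρ1, ← Category.assoc, R.retract,
        Category.id_comp])
      (by rw [Category.assoc, ← hρ2, hs2])
    let s' : Z ⟶ qq.obj (CochainComplex.mappingCone f0) := inv (s ≫ ρ) ≫ s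
    have hs' : s' ≫ ρ = 𝟙 Z := by
      show (inv (s ≫ ρ) ≫ s) ≫ ρ = 𝟙 Z
      rw [Category.assoc, IsIso.inv_hom_id]
    -- vanishing
    have hv : ∀ (T : C) (q : sg c T ⟶ Z), q = 0 := by
      intro T q
      have h1 : q ≫ w = 0 := by
        have h2 : (q ≫ w) ≫ (sgSh c (E.X c)).hom = 0 := sg_ne (by omega) _
        rw [← cancel_mono (sgSh c (E.X c)).hom, h2, zero_comp]
      obtain ⟨q', rfl⟩ := coex3 hT q h1
      obtain ⟨q'', h3⟩ := factor E c h (q' ≫ R.i)
      have h4 : q' = q'' ≫ φ := by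
        calc q' = (q' ≫ R.i) ≫ R.r := by rw [Category.assoc, R.retract, Category.comp_id]
          _ = q'' ≫ φ := by rw [h3, Category.assoc]
      rw [h4, Category.assoc, fg_zero hT, comp_zero]
    -- cut off the last term
    have h' : IsZero ((CochainComplex.mappingCone f0).X (c + 1)) := hW.2 _ (by omega)
    obtain ⟨W', p, w2, hW', hT2⟩ := last hQ hW h'
    obtain ⟨ρ', hρ'⟩ := ex2 hT2 ρ (hv _ _)
    have R' : Retract Z (qq.obj W') :=
      { i := s' ≫ p
        r := ρ'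
        retract := by rw [Category.assoc, ← hρ', hs'] }
    have hc1 : c - 1 = a + n := by omega
    rw [hc1] at hW'
    obtain ⟨Z0, hZ0, ⟨ζ⟩⟩ := ret hQ n a W' hW' Z R'
    -- `X` is a cone
    have hT3 := inv_rot_of_distTriang _ hT
    let ε : qq.obj (Z0⟦(-1 : ℤ)⟧) ≅ Z⟦(-1 : ℤ)⟧ :=
      ((qq (C := C)).commShiftIso (-1 : ℤ)).app Z0 ≪≫ (shiftFunctor _ (-1 : ℤ)).mapIso ζ.symm
    obtain ⟨k0, hk0⟩ := (qq (C := C)).map_surjective
      (ε.hom ≫ (Triangle.mk φ g w).invRotate.mor₁)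
    obtain ⟨g3, w3, hT4⟩ := cone_tri k0
    let I := isoTriangleOfIso₁₂ _ _ hT4 hT3 ε (Iso.refl _) (by
      show qq.map k0 ≫ 𝟙 _ = _
      rw [Category.comp_id, hk0]
      rfl)
    refine ⟨CochainComplex.mappingCone k0, ?_, ⟨(Triangle.π₃.mapIso I).symm⟩⟩
    have hb := bd_shift hQ hZ0 (-1)
    exact bd_cone hQ k0 hb hS (by omega) (by omega) (by omega) (by omega)

end Pool.Agent.NegK.NT.H60
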